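import Pool.Agent.helper24.NR.Spec

set_option autoImplicit false

namespace Pool.Agent.NR

theorem SYM : SYM_stmt := by
  intro V F vs es x y hb
  refine ⟨hb.cfg, hb.ne.symm, ?_, ?_, ?_, ?_⟩
  · intro v hy hx
    exact ⟨(hb.star v hx hy).2, (hb.star v hx hy).1⟩
  · intro f hy hx
    exact hb.noface f hx hy
  · intro v f g hy hx
    exact hb.hA v g f hx hy
  · intro v u f g k l hk hl hf hg hvf hvg
    rw [Sym2.eq_swap] at hvf hvg
    exact hb.hB u v g f l k hl hk hg hf hvg hvf

end Pool.Agent.NR
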